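import Pool.Agent.W795.ES.Stm
import Pool.Agent.H772R2.NSR.Final

/-!
An orthonormal family of smooth elements with a given span.
-/

set_option autoImplicit false

open MeasureTheory Set Filter Topology
open scoped InnerProductSpace

namespace Pool.Agent.W795.ES

open H772R2.NS H772R2.NSR

theorem Smo.mono {H K : Type} [NormedAddCommGroup H] [InnerProductSpace ℝ H]
    [NormedAddCommGroup K] [InnerProductSpace ℝ K] {W : Submodule ℝ (H × K)}
    {B : H → H → K} {c c' : ℝ} {q : H × K} (h : Smo W B c q) (hc : c ≤ c') : Smo W B c' q where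
  mem := h.mem
  lap := fun p hp => (h.lap p hp).trans (mul_le_mul_of_nonneg_right hc (norm_nonneg _))
  tri := fun p hp r hr => (h.tri p hp r hr).trans (mul_le_mul_of_nonneg_right hc (by positivity))
  drift := fun p hp r hr => (h.drift p hp r hr).trans (mul_le_mul_of_nonneg_right hc (by positivity))

theorem exists_basis {Ω : Set E3} {B : L2V Ω → L2V Ω → L2M Ω}
    (hsmo : ∀ φ : E3 → E3, IsTest Ω φ → ∃ (c : ℝ) (q : L2V Ω × L2M Ω), 0 ≤ c ∧
      Smo (graphW Ω) B c q ∧ q.1 =ᵐ[volume.restrict Ω] φ ∧ q.2 =ᵐ[volume.restrict Ω] jac φ)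
    (n : ℕ) (ψ : Fin n → E3 → E3) (hψ : ∀ j, IsTest Ω (ψ j)) :
    ∃ (N : ℕ) (cq : ℝ) (q : Fin N → L2V Ω × L2M Ω), 0 ≤ cq ∧ (∀ j, Smo (graphW Ω) B cq (q j)) ∧
      Orthonormal ℝ (fun j => (q j).1) ∧
      ∀ v : L2V Ω, (∀ k, ⟪v, (q k).1⟫_ℝ = 0) → ∀ j, ∀ w : L2V Ω,
        w =ᵐ[volume.restrict Ω] ψ j → ⟪v, w⟫_ℝ = 0 := by
  have h1 : ∀ j, ∃ p : L2V Ω × L2M Ω, p ∈ preW Ω ∧ p.1 =ᵐ[volume.restrict Ω] ψ j := by
    intro j
    have e1 : MemLp (ψ j) 2 (volume.restrict Ω) := ((hψ j).memLp 2).restrict _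
    have e2 : MemLp (jac (ψ j)) 2 (volume.restrict Ω) := ((hψ j).jac_memLp 2).restrict _
    exact ⟨(e1.toLp _, e2.toLp _), ⟨ψ j, hψ j, e1.coeFn_toLp, e2.coeFn_toLp⟩, e1.coeFn_toLp⟩
  choose p hp hp1 using h1
  set E : Submodule ℝ (L2V Ω) := Submodule.span ℝ (Set.range fun j => (p j).1) with hE
  haveI : FiniteDimensional ℝ E := FiniteDimensional.span_of_finite ℝ (Set.finite_range _)
  set b := stdOrthonormalBasis ℝ E with hb
  have hEle : E ≤ (preW Ω).map (LinearMap.fst ℝ (L2V Ω) (L2M Ω)) := by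
    rw [hE, Submodule.span_le]
    rintro _ ⟨j, rfl⟩
    exact ⟨p j, hp j, rfl⟩
  have h2 : ∀ k, ∃ (c : ℝ) (q : L2V Ω × L2M Ω), 0 ≤ c ∧ Smo (graphW Ω) B c q ∧
      q.1 = (b k : L2V Ω) := by
    intro k
    obtain ⟨r, hr, hr1⟩ := hEle (b k).2
    obtain ⟨φ, k1, k2, k3⟩ := hr
    obtain ⟨c, q, l1, l2, l3, l4⟩ := hsmo φ k1
    refine ⟨c, q, l1, l2, ?_⟩
    have e1 : r.1 = (b k : L2V Ω) := hr1
    rw [← e1]
    exact Lp.ext (l3.trans k2.symm)
  choose c q hc hq hqb using h2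
  refine ⟨_, ∑ k, c k, q, Finset.sum_nonneg fun k _ => hc k, fun k => (hq k).mono
    (Finset.single_le_sum (fun i _ => hc i) (Finset.mem_univ k)), ?_, ?_⟩
  · have : (fun j => (q j).1) = fun j => ((b j : E) : L2V Ω) := funext hqb
    rw [this]
    exact (b.orthonormal).comp_linearIsometry E.subtypeₗᵢ
  · intro v hv j w hw
    have e1 : w = (p j).1 := Lp.ext (hw.trans (hp1 j).symm)
    rw [e1]
    have hmem : (p j).1 ∈ E := Submodule.subset_span ⟨j, rfl⟩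
    have e2 := b.sum_repr' ⟨(p j).1, hmem⟩
    have e3 : (p j).1 = ∑ i, ⟪b i, (⟨(p j).1, hmem⟩ : E)⟫_ℝ • ((b i : E) : L2V Ω) := by
      have := congrArg (fun x : E => (x : L2V Ω)) e2
      simp only [Submodule.coe_sum, Submodule.coe_smul] at this
      exact this.symm
    rw [e3, inner_sum]
    refine Finset.sum_eq_zero fun i _ => ?_
    rw [inner_smul_right, ← hqb i, hv i, mul_zero]

end Pool.Agent.W795.ES
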