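import Mathlib

/-!
From a bound of the time derivative to the modulus of continuity at the final time.
-/

set_option autoImplicit false

open MeasureTheory Set Filter Topology

namespace Pool.Agent.W795.ES

variable {H : Type} [NormedAddCommGroup H] [InnerProductSpace ℝ H] [CompleteSpace H]

theorem int_rate {τ a b : ℝ} (hab : a ≤ b) (hb : b < τ) :
    ∫ t in a..b, (τ - t) ^ (-(3 / 4) : ℝ) = 4 * ((τ - a) ^ (1 / 4 : ℝ) - (τ - b) ^ (1 / 4 : ℝ)) := by
  have h1 : ∀ t ∈ uIcc a b, HasDerivAt (fun t => -4 * (τ - t) ^ (1 / 4 : ℝ))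
      ((τ - t) ^ (-(3 / 4) : ℝ)) t := by
    intro t ht
    rw [uIcc_of_le hab] at ht
    have hp : τ - t ≠ 0 := by linarith [ht.2]
    have h2 : HasDerivAt (fun t => τ - t) (-1) t := by
      simpa using (hasDerivAt_id t).const_sub τ
    have h3 := (h2.rpow_const (p := (1 / 4 : ℝ)) (Or.inl hp)).const_mul (-4)
    have e : (1 / 4 : ℝ) - 1 = -(3 / 4) := by norm_num
    rw [e] at h3
    have e2 : -4 * (-1 * (1 / 4 : ℝ) * (τ - t) ^ (-(3 / 4) : ℝ)) = (τ - t) ^ (-(3 / 4) : ℝ) := by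
      ring
    rw [e2] at h3
    exact h3
  rw [intervalIntegral.integral_eq_sub_of_hasDerivAt h1]
  · ring
  · apply ContinuousOn.intervalIntegrable
    intro t ht
    rw [uIcc_of_le hab] at ht
    have hp : τ - t ≠ 0 := by linarith [ht.2]
    exact ((by fun_prop : Continuous fun t : ℝ => τ - t).continuousAt.rpow_const
      (Or.inl hp)).continuousWithinAt

omit [CompleteSpace H] in
theorem increment {τ a b κ : ℝ} (hab : a ≤ b) (hb : b < τ) {v v1 : ℝ → H}
    (hv : v b - v a = ∫ s in a..b, v1 s)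
    (hb1 : ∀ᵐ t ∂(volume.restrict (Ioc a b)), ‖v1 t‖ ≤ κ * (τ - t) ^ (-(3 / 4) : ℝ)) :
    ‖v b - v a‖ ≤ 4 * κ * ((τ - a) ^ (1 / 4 : ℝ) - (τ - b) ^ (1 / 4 : ℝ)) := by
  rw [hv]
  have hi : IntervalIntegrable (fun t => κ * (τ - t) ^ (-(3 / 4) : ℝ)) volume a b := by
    apply ContinuousOn.intervalIntegrable
    intro t ht
    rw [uIcc_of_le hab] at ht
    have hp : τ - t ≠ 0 := by linarith [ht.2]
    exact (((by fun_prop : Continuous fun t : ℝ => τ - t).continuousAt.rpow_const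
      (Or.inl hp)).const_mul κ).continuousWithinAt
  have h1 := intervalIntegral.norm_integral_le_of_norm_le hab (f := v1)
    (g := fun t => κ * (τ - t) ^ (-(3 / 4) : ℝ)) (by
      rw [ae_restrict_iff' measurableSet_Ioc] at hb1
      exact hb1) hi
  refine h1.trans (le_of_eq ?_)
  rw [intervalIntegral.integral_const_mul, int_rate hab hb]
  ring

theorem limit_state {τ s κ : ℝ} (hs : s < τ) (hκ : 0 ≤ κ) {v : ℝ → H}
    (hv : ∀ a b, s < a → a ≤ b → b < τ →
      ‖v b - v a‖ ≤ 4 * κ * ((τ - a) ^ (1 / 4 : ℝ) - (τ - b) ^ (1 / 4 : ℝ))) :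
    ∃ U : H, ∀ t, s < t → t < τ → ‖v t - U‖ ≤ 4 * κ * (τ - t) ^ (1 / 4 : ℝ) := by
  set x : ℕ → ℝ := fun n => τ - (τ - s) / (n + 2) with hx
  have hd : 0 < τ - s := by linarith
  have hx1 : ∀ n, s < x n := fun n => by
    have : (τ - s) / ((n : ℝ) + 2) < τ - s := by
      rw [div_lt_iff₀ (by positivity)]
      have : (0 : ℝ) ≤ n := Nat.cast_nonneg n
      nlinarith
    simp only [hx]; linarith
  have hx2 : ∀ n, x n < τ := fun n => by
    have : 0 < (τ - s) / ((n : ℝ) + 2) := by positivity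
    simp only [hx]; linarith
  have hxl : Tendsto x atTop (𝓝 τ) := by
    have h1 : Tendsto (fun n : ℕ => (τ - s) / ((n : ℝ) + 2)) atTop (𝓝 0) := by
      have := (tendsto_const_div_atTop_nhds_zero_nat (τ - s)).comp (tendsto_add_atTop_nat 2)
      refine this.congr fun n => ?_
      simp
    simpa [hx] using h1.const_sub τ
  have hmono : ∀ m n, m ≤ n → x m ≤ x n := by
    intro m n hmn
    simp only [hx]
    have : (m : ℝ) ≤ n := by exact_mod_cast hmn
    gcongr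
  have hr : Tendsto (fun n => (τ - x n) ^ (1 / 4 : ℝ)) atTop (𝓝 0) := by
    have h1 : Tendsto (fun n => τ - x n) atTop (𝓝 0) := by simpa using hxl.const_sub τ
    have h2 := h1.rpow_const (p := (1 / 4 : ℝ)) (Or.inr (by norm_num))
    rwa [Real.zero_rpow (by norm_num)] at h2
  have hbn : ∀ m n, m ≤ n → ‖v (x n) - v (x m)‖ ≤ 4 * κ * (τ - x m) ^ (1 / 4 : ℝ) := by
    intro m n hmn
    refine (hv _ _ (hx1 m) (hmono m n hmn) (hx2 n)).trans ?_
    have : 0 ≤ (τ - x n) ^ (1 / 4 : ℝ) := Real.rpow_nonneg (by linarith [hx2 n]) _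
    have : 0 ≤ 4 * κ := by positivity
    nlinarith
  have hC : CauchySeq fun n => v (x n) := by
    refine cauchySeq_of_le_tendsto_0' (fun n => 4 * κ * (τ - x n) ^ (1 / 4 : ℝ)) ?_ ?_
    · intro m n hmn
      rw [dist_comm, dist_eq_norm]
      exact hbn m n hmn
    · simpa using hr.const_mul (4 * κ)
  obtain ⟨U, hU⟩ := cauchySeq_tendsto_of_complete hC
  refine ⟨U, fun t h1 h2 => ?_⟩
  have h3 : Tendsto (fun n => ‖v t - v (x n)‖) atTop (𝓝 ‖v t - U‖) :=
    (tendsto_const_nhds.sub hU).norm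
  refine le_of_tendsto h3 ?_
  filter_upwards [hxl.eventually (lt_mem_nhds h2)] with n hn
  rw [norm_sub_rev]
  refine (hv _ _ h1 hn.le (hx2 n)).trans ?_
  have : 0 ≤ (τ - x n) ^ (1 / 4 : ℝ) := Real.rpow_nonneg (by linarith [hx2 n]) _
  have : 0 ≤ 4 * κ := by positivity
  nlinarith

omit [CompleteSpace H] in
theorem int_sq {τ s κ : ℝ} (hκ : 0 ≤ κ) {v : ℝ → H} {U : H}
    (hc : ContinuousOn v (Ioo s τ))
    (hv : ∀ t, s < t → t < τ → ‖v t - U‖ ≤ 4 * κ * (τ - t) ^ (1 / 4 : ℝ)) {h : ℝ} (hh : 0 < h)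
    (hhs : h ≤ τ - s) : ∫ t in (τ - h)..τ, ‖v t - U‖ ^ 2 ≤ 11 * κ ^ 2 * h ^ (3 / 2 : ℝ) := by
  have hle : τ - h ≤ τ := by linarith
  have hsub : Ioo (τ - h) τ ⊆ Ioo s τ := fun t ht => ⟨by linarith [ht.1], ht.2⟩
  have hb : ∀ t ∈ Ioo (τ - h) τ, ‖v t - U‖ ^ 2 ≤ 16 * κ ^ 2 * (τ - t) ^ (1 / 2 : ℝ) := by
    intro t ht
    have h1 := hv t (hsub ht).1 ht.2
    have h0 : 0 ≤ τ - t := by linarith [ht.2]
    calc ‖v t - U‖ ^ 2 ≤ (4 * κ * (τ - t) ^ (1 / 4 : ℝ)) ^ 2 := by gcongr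
      _ = 16 * κ ^ 2 * ((τ - t) ^ (1 / 4 : ℝ)) ^ 2 := by ring
      _ = 16 * κ ^ 2 * (τ - t) ^ (1 / 2 : ℝ) := by
          have e : ((τ - t) ^ (1 / 4 : ℝ)) ^ 2 = (τ - t) ^ (1 / 2 : ℝ) := by
            rw [← Real.rpow_natCast ((τ - t) ^ (1 / 4 : ℝ)) 2, ← Real.rpow_mul h0]; norm_num
          rw [e]
  have hcg : Continuous fun t : ℝ => 16 * κ ^ 2 * |τ - t| ^ (1 / 2 : ℝ) := by
    refine continuous_const.mul ?_
    exact (by fun_prop : Continuous fun t : ℝ => |τ - t|).rpow_const fun _ => Or.inr (by norm_num)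
  have hgi : IntegrableOn (fun t : ℝ => 16 * κ ^ 2 * (τ - t) ^ (1 / 2 : ℝ)) (Ioo (τ - h) τ) := by
    refine ((hcg.integrableOn_Icc (a := τ - h) (b := τ)).mono_set Ioo_subset_Icc_self).congr_fun
      (fun t ht => ?_) measurableSet_Ioo
    simp only
    rw [abs_of_nonneg (by linarith [ht.2])]
  have hfm : AEStronglyMeasurable (fun t => ‖v t - U‖ ^ 2) (volume.restrict (Ioo (τ - h) τ)) :=
    ((((hc.mono hsub).sub continuousOn_const).norm).pow 2).aestronglyMeasurable measurableSet_Ioo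
  have hfi : IntegrableOn (fun t => ‖v t - U‖ ^ 2) (Ioo (τ - h) τ) := by
    refine hgi.mono' hfm ?_
    filter_upwards [ae_restrict_mem measurableSet_Ioo] with t ht
    rw [Real.norm_eq_abs, abs_of_nonneg (by positivity)]
    exact hb t ht
  rw [intervalIntegral.integral_of_le hle, integral_Ioc_eq_integral_Ioo]
  refine (setIntegral_mono_on hfi hgi measurableSet_Ioo hb).trans ?_
  rw [← integral_Ioc_eq_integral_Ioo, ← intervalIntegral.integral_of_le hle,
    intervalIntegral.integral_const_mul]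
  have e1 : ∫ t in (τ - h)..τ, (τ - t) ^ (1 / 2 : ℝ) = 2 / 3 * h ^ (3 / 2 : ℝ) := by
    have := intervalIntegral.integral_comp_sub_left (a := τ - h) (b := τ)
      (fun t : ℝ => t ^ (1 / 2 : ℝ)) τ
    rw [this, sub_self, sub_sub_cancel, integral_rpow (Or.inl (by norm_num))]
    rw [Real.zero_rpow (by norm_num)]
    norm_num
    ring
  rw [e1]
  have h5 : 0 ≤ h ^ (3 / 2 : ℝ) := by positivity
  nlinarith [mul_nonneg (sq_nonneg κ) h5]

end Pool.Agent.W795.ES
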