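import Pool.Agent.H772R2.NS.Pub

/-!
Public definition: production of the energy of a perturbation.
-/

set_option autoImplicit false

open MeasureTheory Set
open scoped InnerProductSpace

namespace Pool.Agent.W795.ES

open H772R2.NS.Pub

/-- The matrix `v ⊗ v` with the entries `v_i v_j`. -/
noncomputable def outer (v : R3) : Mat :=
  WithLp.toLp 2 fun p : Fin 3 × Fin 3 => ⟪e p.1, v⟫_ℝ * ⟪e p.2, v⟫_ℝ

/-- `∫ v·(v·∇)u = ∫ ∑ v_i v_j ∂_j u_i`, where `G = ∇u`. -/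
noncomputable def stretch {Ω : Set R3} (G : L2 Ω Mat) (v : L2 Ω R3) : ℝ :=
  ∫ x in Ω, ⟪G.fn x, outer (v.fn x)⟫_ℝ

end Pool.Agent.W795.ES
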