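import Pool.Agent.W795.ES.Fin
import Pool.Agent.W795.ES.Basis
import Pool.Agent.W795.ES.PubDef
import Pool.Agent.W795.TQ.DPub

/-!
Instability before a first singular time, in a domain, in terms of the public definitions.
-/

set_option autoImplicit false

open MeasureTheory Set Filter Topology
open scoped InnerProductSpace ENNReal ContDiff

namespace Pool.Agent.W795.ES

open H772R2.NS H772R2.NS.Pub H772R2.NSR H772R2.NSG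
open Pool.Agent.W795.TQ

theorem stretch_eq {Ω : Set E3} (hΩ : MeasurableSet Ω) (G : L2M Ω) {p : L2V Ω × L2M Ω}
    (hp : p ∈ graphW Ω) :
    stretch (Ω := (show Set R3 from Ω)) G p.1 = ⟪tensL p.1, G⟫_ℝ := by
  rw [real_inner_comm]
  unfold stretch
  rw [L2.inner_def]
  refine integral_congr_ae (μ := (volume : Measure E3).restrict Ω) ?_
  filter_upwards [tensL_coe hΩ hp] with x hx
  rw [hx]
  refine congrArg (fun y : M3 => ⟪G x, y⟫_ℝ) ?_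
  refine PiLp.ext fun r => ?_
  show ⟪(Pub.e r.1 : E3), (p.1 x : E3)⟫_ℝ * ⟪(Pub.e r.2 : E3), (p.1 x : E3)⟫_ℝ = _
  rw [inner_e, inner_e]
  rfl

theorem es_mid (hconc : S_conc) (hgr : S_gr) (hit : S_iter) (hode : S_ode) (htp : S_dtp)
    (he1 : S_est1) (he2 : S_est2) (hloc : S_loc) (huni : S_uni) (hun : S_univ) :
    ∀ (Ω : Set E3), IsOpen Ω → Bornology.IsBounded Ω → ∀ (ν T : ℝ), 0 < ν → 0 < T →
    ∀ (F F' : ℝ → L2M Ω), MemLp F' 2 (volume.restrict (Ioc 0 T)) →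
    (∀ a b, 0 ≤ a → a ≤ b → b ≤ T → F b - F a = ∫ s in a..b, F' s) →
    ∀ (u : ℝ → L2V Ω) (z : ℝ → L2M Ω), AEStronglyMeasurable u (volume.restrict (Ioc 0 T)) →
    (∀ᵐ t ∂(volume.restrict (Ioc 0 T)), (u t, z t) ∈ graphW Ω) →
    MemLp z 2 (volume.restrict (Ioc 0 T)) →
    (∀ φ : E3 → E3, H772R2.NS.IsTest Ω φ → ∀ t ∈ Icc 0 T,
      (∫ x in (show Set R3 from Ω), ⟪L2.fn (Ω := Ω) (E := R3) (u t) x, (φ : R3 → R3) x⟫_ℝ)
        - (∫ x in (show Set R3 from Ω), ⟪L2.fn (Ω := Ω) (E := R3) (u 0) x, (φ : R3 → R3) x⟫_ℝ)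
      = ∫ s in (0 : ℝ)..t, Pub.rhs (Ω := Ω) ν (u s) (z s) (F s) φ) →
    (∀ t ∈ Icc 0 T, ‖u t‖ ^ 2 / 2 + ν * (∫ s in (0 : ℝ)..t, ‖z s‖ ^ 2)
      ≤ ‖u 0‖ ^ 2 / 2 + ∫ s in (0 : ℝ)..t, ⟪F s, z s⟫_ℝ) →
    ∀ z0 : L2M Ω, (u 0, z0) ∈ graphW Ω →
    (∃ h : L2V Ω, ∀ φ : E3 → E3, H772R2.NS.IsTest Ω φ →
      Pub.rhs (Ω := Ω) ν (u 0) z0 (F 0) φ
        = ∫ x in (show Set R3 from Ω), ⟪L2.fn (Ω := Ω) (E := R3) h x, (φ : R3 → R3) x⟫_ℝ) →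
    (∃ u' G1 G', IsStrong (show Set R3 from Ω) ν T F u u' G1 G') ∨
    ∃ τ ∈ Ioc 0 T, (∀ t ∈ Ioo 0 τ, ∃ u' G1 G', IsStrong (show Set R3 from Ω) ν t F u u' G1 G') ∧
      ∀ (n : ℕ) (ψ : Fin n → E3 → E3), (∀ j, H772R2.NS.IsTest Ω (ψ j)) → ∀ δ : ℝ, 0 < δ →
      ∀ s ∈ Ico 0 τ, ∃ Mc : ℝ, ∀ Λ : ℝ → ℝ, (∀ t, 0 ≤ Λ t) →
        (∀ t ∈ Ioo 0 τ, IntervalIntegrable Λ volume 0 t) →
        (∀ᵐ t ∂(volume.restrict (Ioc 0 τ)), ∀ p ∈ graphW Ω,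
          (∀ j, (∫ x in (show Set R3 from Ω),
            ⟪L2.fn (Ω := Ω) (E := R3) p.1 x, (ψ j : R3 → R3) x⟫_ℝ) = 0) →
          -stretch (Ω := (show Set R3 from Ω)) (z t) p.1
            ≤ (1 - δ) * ν * ‖p.2‖ ^ 2 + Λ t * ‖p.1‖ ^ 2) →
        ∀ t0 < τ, ∃ t ∈ Ioo t0 τ, s < t ∧
          3 / 4 * Real.log (1 / (τ - t)) - Mc ≤ ∫ r in s..t, Λ r := by
  intro Ω hΩ hb ν T hν hT F F' hF1 hF u z hmeas hmem hz2 heqn hen z0 h0 hg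
  obtain ⟨c, hc, hU⟩ := hun
  obtain ⟨B, hB, hsmo⟩ := hconc Ω hΩ hb
  obtain ⟨C, Fr⟩ := exists_frame hΩ hb
  obtain ⟨g0, hg0⟩ := hg
  have hm : MeasurableSet Ω := hΩ.measurableSet
  have hcomp : ∀ p ∈ graphW Ω, ⟪F 0 - ν • z0 + tensL (u 0), p.2⟫_ℝ = ⟪g0, p.1⟫_ℝ := by
    refine compat_ext ?_
    rintro p ⟨φ, k1, k2, k3⟩
    rw [← pub_rhs hm ν (F 0) h0 k3, ← pub_inner (Ω := Ω) g0 k2]
    exact hg0 φ k1
  have hFc : ContinuousOn F (Icc 0 T) := prim_cont hF1 hF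
  have hLH := lh_mid hΩ hFc Fr hmeas hmem hz2 heqn hen
  rcases es_abs hgr hit hode htp he1 he2 hloc huni c hc (L2V Ω) (L2M Ω) (graphW Ω) tensL C ν T
    F F' (u 0) g0 z0 u z Fr (hU _ hΩ) (rellich_W hΩ hb) hν hT ⟨hF1, hF⟩ h0 hcomp hLH with
    ⟨w, w1, y, y1, k1, k2⟩ | ⟨τ, hτ, k1, k2⟩
  · exact Or.inl ⟨w1, y, y1, strong_of_str hΩ hT k1 k2⟩
  refine Or.inr ⟨τ, hτ, fun t ht => ?_, ?_⟩
  · obtain ⟨w, w1, y, y1, k3, k4⟩ := k1 t ht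
    exact ⟨w1, y, y1, strong_of_str hΩ ht.1 k3 k4⟩
  intro n ψ hψ δ hδ s hs
  obtain ⟨N, cq, q, hcq, hq, hqo, hqv⟩ := exists_basis hsmo n ψ hψ
  -- a time at which `u` is differentiable
  obtain ⟨r, hr, a, ha⟩ : ∃ r ∈ Ioo s τ, ∃ a, HasDerivAt u a r := by
    have hT'0 : 0 < (s + τ) / 2 := by linarith [hs.1, hτ.1]
    have hT'τ : (s + τ) / 2 < τ := by linarith [hs.2]
    obtain ⟨w, w1, y, y1, k3, k4⟩ := k1 ((s + τ) / 2) ⟨hT'0, hT'τ⟩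
    have hd := ae_deriv_of_prim hT'0 (memLp_ii hT'0.le k3.u1m) k3.pu
    have hpos : volume (Ioo s ((s + τ) / 2)) ≠ 0 := by
      rw [Real.volume_Ioo]
      simp only [ne_eq, ENNReal.ofReal_eq_zero, not_le]
      linarith [hs.2]
    have hss : Ioo s ((s + τ) / 2) ⊆ Ioc 0 ((s + τ) / 2) :=
      fun x hx => ⟨hs.1.trans_lt hx.1, hx.2.le⟩
    have hsub : (volume.restrict (Ioo s ((s + τ) / 2)) : Measure ℝ)
        ≤ volume.restrict (Ioc 0 ((s + τ) / 2)) := Measure.restrict_mono hss le_rfl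
    have h1 : ∀ᵐ x ∂(volume.restrict (Ioo s ((s + τ) / 2))), HasDerivAt w (w1 x) x :=
      ae_mono hsub hd
    rw [ae_restrict_iff' measurableSet_Ioo] at h1
    have h2 : ∃ x ∈ Ioo s ((s + τ) / 2), HasDerivAt w (w1 x) x := by
      by_contra hcon
      push Not at hcon
      refine hpos (measure_mono_null (t := {x | ¬ (x ∈ Ioo s ((s + τ) / 2) →
        HasDerivAt w (w1 x) x)}) ?_ h1)
      intro x hx
      simp only [mem_setOf_eq, not_forall]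
      exact ⟨hx, hcon x hx⟩
    obtain ⟨x, hx, hdx⟩ := h2
    refine ⟨x, ⟨hx.1, hx.2.trans hT'τ⟩, w1 x, hdx.congr_of_eventuallyEq ?_⟩
    filter_upwards [Ioo_mem_nhds (hs.1.trans_lt hx.1) hx.2] with x' hx'
    exact k4 x' ⟨hx'.1.le, hx'.2.le⟩
  obtain ⟨Mc, hMc⟩ := k2 N B cq q δ hB hcq hq hqo hδ r ⟨hs.1.trans_lt hr.1, hr.2⟩ a ha
  refine ⟨Mc, ?_⟩
  intro Λ hΛ0 hΛi hform t0 ht0
  obtain ⟨t, ht, hrt, hlog⟩ := hMc Λ hΛ0 hΛi (by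
    filter_upwards [hform] with t ht
    intro p hp hpq
    have h1 := ht p hp (fun j => by
      obtain ⟨w, hw, hw1, _⟩ := exists_pair (Ω := Ω) (hψ j)
      rw [pub_inner (Ω := Ω) p.1 hw1]
      exact hqv p.1 hpq j w.1 hw1)
    rw [stretch_eq hm (z t) hp] at h1
    exact h1) t0 ht0
  refine ⟨t, ht, hr.1.trans hrt, hlog.trans ?_⟩
  have ht' : t ∈ Ioo 0 τ := ⟨by linarith [hs.1, hr.1], ht.2⟩
  have hi := hΛi t ht'
  rw [intervalIntegral.integral_of_le hrt.le, intervalIntegral.integral_of_le (hr.1.trans hrt).le]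
  refine setIntegral_mono_set ?_ (Eventually.of_forall hΛ0)
    (Ioc_subset_Ioc_left hr.1.le).eventuallyLE
  rw [intervalIntegrable_iff_integrableOn_Ioc_of_le ht'.1.le] at hi
  exact hi.mono_set (Ioc_subset_Ioc_left hs.1)

end Pool.Agent.W795.ES
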