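import Pool.Agent.W795.TQ.DStm
import Pool.Agent.H772R2.NS.Space3

/-!
Growth of the time differences in terms of the numerical abscissa of the linearised equation,
on the orthogonal complement of a finite dimensional space (project ES): statements.
-/

set_option autoImplicit false

open MeasureTheory Set
open scoped InnerProductSpace

namespace Pool.Agent.W795.ES

open H772R2.NSR (Frame)
open H772R2.NS (graphW tensL)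
open Pool.Agent.W795.TQ (Str FH)

/-- The bilinear map behind `m`: `⟪B v w, ∇r⟫ = ∫ (v·∇)r · w`. -/
structure Tri {H K : Type} [NormedAddCommGroup H] [InnerProductSpace ℝ H]
    [NormedAddCommGroup K] [InnerProductSpace ℝ K] (W : Submodule ℝ (H × K)) (m : H → K)
    (B : H → H → K) : Prop where
  diag : ∀ p ∈ W, B p.1 p.1 = m p.1
  linl : ∀ p ∈ W, ∀ q ∈ W, ∀ r ∈ W, ∀ a : ℝ, B (p.1 + a • q.1) r.1 = B p.1 r.1 + a • B q.1 r.1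
  linr : ∀ p ∈ W, ∀ q ∈ W, ∀ r ∈ W, ∀ a : ℝ, B r.1 (p.1 + a • q.1) = B r.1 p.1 + a • B r.1 q.1
  anti : ∀ p ∈ W, ∀ q ∈ W, ∀ r ∈ W, ⟪B p.1 q.1, r.2⟫_ℝ = -⟪B p.1 r.1, q.2⟫_ℝ

/-- A smooth element of `W`. -/
structure Smo {H K : Type} [NormedAddCommGroup H] [InnerProductSpace ℝ H]
    [NormedAddCommGroup K] [InnerProductSpace ℝ K] (W : Submodule ℝ (H × K))
    (B : H → H → K) (c : ℝ) (q : H × K) : Prop where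
  mem : q ∈ W
  lap : ∀ p ∈ W, |⟪p.2, q.2⟫_ℝ| ≤ c * ‖p.1‖
  tri : ∀ p ∈ W, ∀ r ∈ W, |⟪B p.1 r.1, q.2⟫_ℝ| ≤ c * (‖p.1‖ * ‖r.1‖)
  drift : ∀ p ∈ W, ∀ r ∈ W, |⟪B q.1 p.1, r.2⟫_ℝ| ≤ c * (‖p.1‖ * ‖r.2‖)

/-- ES-PT: the pointwise inequality for the difference `w = p2.1 - p1.1` of two states and its
component `φ = w - ∑ ⟪w, q_j⟫ q_j`. -/
def S_pt : Prop := ∀ (N : ℕ) (ν δ c M : ℝ), 0 < ν → 0 < δ → 0 ≤ c → 0 ≤ M → ∃ A : ℝ, 0 < A ∧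
  ∀ (H K : Type) [NormedAddCommGroup H] [InnerProductSpace ℝ H]
    [NormedAddCommGroup K] [InnerProductSpace ℝ K]
    (W : Submodule ℝ (H × K)) (m : H → K) (B : H → H → K) (q : Fin N → H × K)
    (p1 p2 : H × K) (w1 : H) (f : K) (Λ η : ℝ),
    (∀ p ∈ W, ∀ q ∈ W, ⟪m p.1 - m q.1, p.2 - q.2⟫_ℝ = -⟪m (p.1 - q.1), q.2⟫_ℝ) →
    Tri W m B → (∀ j, Smo W B c (q j)) → Orthonormal ℝ (fun j => (q j).1) →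
    p1 ∈ W → p2 ∈ W → ‖p1.1‖ ≤ M → ‖p2.1‖ ≤ M →
    (∀ p ∈ W, ⟪w1, p.1⟫_ℝ = ⟪f - ν • (p2.2 - p1.2) + (m p2.1 - m p1.1), p.2⟫_ℝ) →
    0 ≤ Λ → 0 ≤ η → (∀ j, |⟪p2.1 - p1.1, (q j).1⟫_ℝ| ≤ η) →
    (∀ p ∈ W, (∀ j, ⟪p.1, (q j).1⟫_ℝ = 0) →
      -⟪m p.1, p1.2⟫_ℝ ≤ (1 - δ) * ν * ‖p.2‖ ^ 2 + Λ * ‖p.1‖ ^ 2) →
    2 * ⟪w1, (p2.1 - p1.1) - ∑ j, ⟪p2.1 - p1.1, (q j).1⟫_ℝ • (q j).1⟫_ℝ
      ≤ 2 * (Λ + 1) * ‖(p2.1 - p1.1) - ∑ j, ⟪p2.1 - p1.1, (q j).1⟫_ℝ • (q j).1‖ ^ 2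
        + A * (‖f‖ ^ 2 + η ^ 2)

/-- ES-GR: growth of `∂ₜu` for strong solutions, uniformly in the length of the time interval. -/
def S_gr : Prop := ∀ (N : ℕ) (ν δ c M Φ T0 G : ℝ), 0 < ν → 0 < δ → 0 ≤ c → 0 ≤ M → 0 ≤ Φ →
  0 < T0 → 0 ≤ G → ∃ A : ℝ, 0 < A ∧
  ∀ (H K : Type) [NormedAddCommGroup H] [InnerProductSpace ℝ H] [CompleteSpace H]
    [NormedAddCommGroup K] [InnerProductSpace ℝ K] [CompleteSpace K]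
    (W : Submodule ℝ (H × K)) (m : H → K) (B : H → H → K) (C T : ℝ) (F F1 : ℝ → K)
    (u u1 : ℝ → H) (z z1 : ℝ → K) (q : Fin N → H × K) (Λ : ℝ → ℝ),
    Frame W m C → Tri W m B → (∀ j, Smo W B c (q j)) → Orthonormal ℝ (fun j => (q j).1) →
    0 < T → T ≤ T0 → FH T F F1 → Str W m ν T F u u1 z z1 →
    (∀ t ∈ Icc 0 T, ‖F t‖ ≤ Φ) → (∀ t ∈ Icc 0 T, ‖u t‖ ≤ M) →
    (∫ s in (0 : ℝ)..T, ‖F1 s‖ ^ 2) ≤ G →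
    (∀ t, 0 ≤ Λ t) → IntervalIntegrable Λ volume 0 T →
    (∀ᵐ s ∂(volume.restrict (Ioc 0 T)), ∀ p ∈ W, (∀ j, ⟪p.1, (q j).1⟫_ℝ = 0) →
      -⟪m p.1, z s⟫_ℝ ≤ (1 - δ) * ν * ‖p.2‖ ^ 2 + Λ s * ‖p.1‖ ^ 2) →
    ∀ s0 ∈ Ioo 0 T, ∀ a : H, HasDerivAt u a s0 →
    ∀ᵐ t ∂(volume.restrict (Ioc s0 T)),
      ‖u1 t‖ ≤ A * (1 + ‖a‖) * Real.exp (∫ s in s0..t, Λ s)

/-- ES-CONC: the bilinear map and the smooth elements in a domain. -/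
def S_conc : Prop := ∀ Ω : Set H772R2.NS.E3, IsOpen Ω → Bornology.IsBounded Ω →
  ∃ B : H772R2.NS.L2V Ω → H772R2.NS.L2V Ω → H772R2.NS.L2M Ω, Tri (graphW Ω) tensL B ∧
    ∀ φ : H772R2.NS.E3 → H772R2.NS.E3, H772R2.NS.IsTest Ω φ →
      ∃ (c : ℝ) (q : H772R2.NS.L2V Ω × H772R2.NS.L2M Ω), 0 ≤ c ∧ Smo (graphW Ω) B c q ∧
        q.1 =ᵐ[volume.restrict Ω] φ ∧ q.2 =ᵐ[volume.restrict Ω] H772R2.NS.jac φ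

end Pool.Agent.W795.ES
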